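import Pool.Agent.helper25.PP.Main
import Pool.Agent.helper51.PP.NB4
import Pool.Agent.helper57.PP.SWR
import Pool.Agent.helper18.PP.DBL
import Pool.Agent.helper23.PP.PA1
import Pool.Agent.helper24.PP.PA2
import Pool.Agent.helper82.PP.DN1
import Pool.Agent.helper92.PP.DN2
import Pool.Agent.helper76.PP.DN3
import Pool.Agent.helper77.PP.HS
import Pool.Agent.helper1.PP.CH1
import Pool.Agent.helper72.PP.CH2
import Pool.Agent.helper63.PP.CH3
import Pool.Agent.helper65.PP.CH4
import Pool.Agent.helper64.PP.CN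
import Pool.Agent.helper91.PP.DE
import Pool.Agent.helper45.PP.DT1
import Pool.Agent.helper34.PP.DT2
import Pool.Agent.helper31.PP.DT3
import Pool.Agent.helper38.PP.NUM
import Pool.Agent.helper67.PP.AAP
import Pool.Agent.helper30.PP.NAT
import Pool.Agent.helper33.PP.FT1
import Pool.Agent.helper52.PP.GD2
import Pool.Agent.helper11.PP.FV1
import Pool.Agent.helper76.PP.FV2
import Pool.Agent.helper99.PP.FC
import Pool.Agent.helper16.PP.NE
import Pool.Agent.helper97.PP.POS
import Pool.Agent.helper21.CT.D1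
import Pool.Agent.helper89.CT.D0

/-!
# Project pp: assembly
-/

set_option autoImplicit false

namespace PP

open Finset SimpleGraph CT

theorem fNB4 : NB4_stmt := NB4
theorem fSWR : SWR_stmt := SWR fNB4
theorem fDBL : DBL_stmt := DBL fSWR
theorem fPA1 : PA1_stmt := PA1 fDBL fNB4
theorem fPA2 : PA2_stmt := PA2 fPA1
theorem fDN1 : DN1_stmt := DN1 fPA2
theorem fDN3 : DN3_stmt := DN3 fDN1 DN2
theorem fHS : HS_stmt := HS fNB4
theorem fCH1 : CH1_stmt := CH1 fDBL fHS fNB4
theorem fCH2 : CH2_stmt := CH2 fCH1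
theorem fCH3 : CH3_stmt := CH3 fCH2 fHS
theorem fCH4 : CH4_stmt := CH4 fCH3
theorem fDE : DE_stmt := DE fHS
theorem fDT1 : DT1_stmt := DT1 fDE CN fHS fNB4
theorem fDT2 : DT2_stmt := DT2 fDE CN fHS fNB4
theorem fAAP : AAP_stmt := AAP fDN3 fCH4 fDT1 fDT2 DT3 NUM
theorem fFT1 : FT1_stmt := FT1 NAT CT.D1 CT.D0
theorem fFV2 : FV2_stmt := FV2 fFT1 GD2 FV1 fSWR
theorem fFC : FC_stmt := FC fFV2 fDBL fNB4
theorem fPOS : POS_stmt := POS fAAP fFC

end PP
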