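import Pool.Agent.helper25.PP.Spec

/-!
# Project pp: the final theorem from the statements of the spec
-/

set_option autoImplicit false

namespace PP

open Finset SimpleGraph CT

section
variable {V : Type} [Fintype V] [DecidableEq V]

theorem cc_eq (P : SimpleGraph V → Prop) :
    cc P = Nat.card {G : SimpleGraph V // FourRegular G ∧ P G} := by
  classical
  rw [Nat.card_eq_fintype_card, Fintype.card_subtype]
  unfold cc RP
  congr 1

theorem cc_prime : cc (V := V) PrimeAncestor = Nat.card {G : SimpleGraph V // PrimeAncestor G} := by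
  rw [cc_eq]
  apply Nat.card_congr
  exact Equiv.subtypeEquivRight fun G => ⟨fun h => h.2, fun h => ⟨h.regular, h⟩⟩

theorem cc_true : cc (fun _ : SimpleGraph V => True) =
    Nat.card {G : SimpleGraph V // FourRegular G} := by
  rw [cc_eq]
  apply Nat.card_congr
  exact Equiv.subtypeEquivRight fun G => ⟨fun h => h.1, fun h => ⟨h, trivial⟩⟩

theorem bit_le (G : SimpleGraph V) : bit G ≤ 1 := by
  classical
  unfold bit
  split_ifs <;> omega

theorem not_neg_one (H : SimpleGraph V) (h : C2Is H (ZMod 2) 0) : ¬ C2Is H (ZMod 2) (-1) := by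
  obtain ⟨k, hk, hr⟩ := h
  rintro ⟨m, hm, hs⟩
  have h3 : Nat.card (ZMod 2) = 2 := by simp
  rw [h3] at hk hm hr hs
  have h4 : k = m := by omega
  subst h4
  have h5 := Int.ModEq.dvd (hr.symm.trans hs)
  push_cast at h5

end

theorem main (hFV1 : FV1_stmt) (hAAP : AAP_stmt) (hNE : NE_stmt) (hPOS : POS_stmt) :
    ∀ ε : ℝ, 0 < ε → ∃ n₀ : ℕ, ∀ n : ℕ, n₀ ≤ n →
      0 < Nat.card {G : SimpleGraph (Fin n) // FourRegular G} ∧
      (1 / 5 - ε) * (Nat.card {G : SimpleGraph (Fin n) // FourRegular G} : ℝ) ≤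
        (Nat.card {G : SimpleGraph (Fin n) // PrimeAncestor G ∧
          ∀ v, C2Is (decompletion G v) (ZMod 2) 0 ∧
            ¬ C2Is (decompletion G v) (ZMod 2) (-1)} : ℝ) := by
  intro ε hε
  obtain ⟨n₁, h₁⟩ := hAAP (ε / 2) (by positivity)
  obtain ⟨n₃, h₃⟩ := hPOS (ε / 2) (by positivity)
  refine ⟨n₁ + n₃ + 6, fun n hn => ?_⟩
  have a₁ := h₁ (Fin n) (by rw [Fintype.card_fin]; omega)
  have a₃ := h₃ (Fin n) (by rw [Fintype.card_fin]; omega)
  have hpos : 0 < cc (fun _ : SimpleGraph (Fin n) => True) := by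
    obtain ⟨G, hG⟩ := hNE n (by omega)
    exact Finset.card_pos.2 ⟨G, (mem_cc _ _).2 ⟨hG, trivial⟩⟩
  have hle : cc (fun G : SimpleGraph (Fin n) => PrimeAncestor G ∧ bit G = 0) ≤
      Nat.card {G : SimpleGraph (Fin n) // PrimeAncestor G ∧
        ∀ v, C2Is (decompletion G v) (ZMod 2) 0 ∧
          ¬ C2Is (decompletion G v) (ZMod 2) (-1)} := by
    rw [cc_eq]
    apply Nat.card_le_card_of_injective
      (fun G : {G : SimpleGraph (Fin n) // FourRegular G ∧ PrimeAncestor G ∧ bit G = 0} =>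
        (⟨G.1, G.2.2.1, fun v => by
          have h6 := (hFV1 (Fin n) G.1 G.2.1 (by rw [Fintype.card_fin]; omega)).1 v
          rw [G.2.2.2] at h6
          exact ⟨by exact_mod_cast h6, not_neg_one _ (by exact_mod_cast h6)⟩⟩ :
          {G : SimpleGraph (Fin n) // PrimeAncestor G ∧
            ∀ v, C2Is (decompletion G v) (ZMod 2) 0 ∧
              ¬ C2Is (decompletion G v) (ZMod 2) (-1)}))
    intro G G' h
    apply Subtype.ext
    exact congrArg (fun x => x.1) h
  rw [cc_true] at a₁ hpos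
  refine ⟨hpos, ?_⟩
  have hle' : ((cc (fun G : SimpleGraph (Fin n) => PrimeAncestor G ∧ bit G = 0) : ℕ) : ℝ) ≤
      (Nat.card {G : SimpleGraph (Fin n) // PrimeAncestor G ∧
        ∀ v, C2Is (decompletion G v) (ZMod 2) 0 ∧
          ¬ C2Is (decompletion G v) (ZMod 2) (-1)} : ℝ) := by exact_mod_cast hle
  refine le_trans ?_ hle'
  refine le_trans ?_ a₃
  set T : ℝ := (Nat.card {G : SimpleGraph (Fin n) // FourRegular G} : ℝ) with hT
  set P : ℝ := ((cc (V := Fin n) PrimeAncestor : ℕ) : ℝ) with hP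
  have hT0 : 0 ≤ T := Nat.cast_nonneg _
  have hP0 : 0 ≤ P := Nat.cast_nonneg _
  rcases le_or_gt (1 / 5 - ε / 2) 0 with h | h
  · have h4 : P ≤ T := by
      rw [hT, hP, cc_prime]
      have h5 : Nat.card {G : SimpleGraph (Fin n) // PrimeAncestor G} ≤
          Nat.card {G : SimpleGraph (Fin n) // FourRegular G} := by
        apply Nat.card_le_card_of_injective
          (fun G : {G : SimpleGraph (Fin n) // PrimeAncestor G} =>
            (⟨G.1, G.2.regular⟩ : {G : SimpleGraph (Fin n) // FourRegular G}))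
        intro G G' h
        apply Subtype.ext
        exact congrArg (fun x => x.1) h
      exact_mod_cast h5
    nlinarith
  · have h4 : (1 / 5 - ε / 2) * ((1 - ε / 2) * T) ≤ (1 / 5 - ε / 2) * P :=
      mul_le_mul_of_nonneg_left a₁ h.le
    have h5 : (1 / 5 - ε) * T ≤ (1 / 5 - ε / 2) * ((1 - ε / 2) * T) := by
      have h6 : 0 ≤ (1 / 5 - ε / 2) * (1 - ε / 2) - (1 / 5 - ε) := by nlinarith
      nlinarith
    linarith

end PP
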