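import Pool.Agent.helper56.CT.Problem

/-!
# Project pp (MP_45d809_mp): positive proportion of prime ancestors without `c_2 = -1`

Module `XX` proves `theorem XX (hYY : YY_stmt) ... : XX_stmt` in the file
`Pool/Agent/<seat>/PP/XX.lean`: `import Pool.Agent.helper25.PP.Spec` (plus the library files named in
the docstring), `set_option autoImplicit false`, `namespace PP`, `open Finset SimpleGraph CT`.
Any other statement of this file may be used as a hypothesis (no circles). Auxiliary lemmas are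
prefixed `XX_`. No `sorry`, no double quotes. The predicates inside `cc`, `ein`, `dout` are decided
classically: use `classical` and the lemmas `mem_cc`, `mem_ein`, `mem_dout` below.

Notation: `n = Fintype.card V`; `R` = the set of the 4-regular graphs on `V`;
`cc P` = the number of `G ∈ R` with `P G`; `N H` = the number of `G ∈ R` containing all edges of `H`.
-/

set_option autoImplicit false

namespace PP

open Finset SimpleGraph CT

section defs
variable {V : Type} [Fintype V] [DecidableEq V]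

/-- Replace the edges `ab`, `cd` by `ac`, `bd`. -/
def sw (G : SimpleGraph V) (a b c d : V) : SimpleGraph V where
  Adj x y := (G.Adj x y ∧ s(x, y) ≠ s(a, b) ∧ s(x, y) ≠ s(c, d)) ∨
    (x ≠ y ∧ (s(x, y) = s(a, c) ∨ s(x, y) = s(b, d)))
  symm := ⟨by
    intro x y h
    rcases h with ⟨h1, h2, h3⟩ | ⟨h1, h2⟩
    · exact Or.inl ⟨h1.symm, by rwa [Sym2.eq_swap], by rwa [Sym2.eq_swap]⟩
    · exact Or.inr ⟨h1.symm, by rwa [Sym2.eq_swap (a := y)]⟩⟩
  loopless := ⟨by
    intro x h
    rcases h with ⟨h1, -, -⟩ | ⟨h1, -⟩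
    · exact G.loopless.irrefl x h1
    · exact h1 rfl⟩

/-- The switching `ab, cd → ac, bd` is possible (then `a, b, c, d` are distinct). -/
def Ok (G : SimpleGraph V) (a b c d : V) : Prop :=
  G.Adj a b ∧ G.Adj c d ∧ a ≠ c ∧ b ≠ d ∧ ¬ G.Adj a c ∧ ¬ G.Adj b d

open Classical in
/-- The set of the 4-regular graphs with the property `P`. -/
noncomputable def RP (P : SimpleGraph V → Prop) : Finset (SimpleGraph V) :=
  univ.filter fun G => FourRegular G ∧ P G

/-- The number of 4-regular graphs with the property `P`. -/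
noncomputable def cc (P : SimpleGraph V → Prop) : ℕ := (RP P).card

theorem mem_cc (P : SimpleGraph V → Prop) (G : SimpleGraph V) :
    G ∈ RP P ↔ FourRegular G ∧ P G := by
  classical
  simp [RP]

/-- The number of 4-regular graphs containing the edges of `H`. -/
noncomputable def N (H : Finset (Sym2 V)) : ℕ := cc fun G : SimpleGraph V => ∀ x ∈ H, x ∈ G.edgeSet

open Classical in
/-- The ordered pairs of adjacent vertices of `B`. -/
noncomputable def inn (G : SimpleGraph V) (B : Finset V) : Finset (V × V) :=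
  (B ×ˢ B).filter fun p => G.Adj p.1 p.2

open Classical in
/-- The edges leaving `S`. -/
noncomputable def out (G : SimpleGraph V) (S : Finset V) : Finset (V × V) :=
  (S ×ˢ Sᶜ).filter fun p => G.Adj p.1 p.2

/-- Twice the number of edges inside `B`. -/
noncomputable def ein (G : SimpleGraph V) (B : Finset V) : ℕ := (inn G B).card

/-- The number of edges leaving `S`. -/
noncomputable def dout (G : SimpleGraph V) (S : Finset V) : ℕ := (out G S).card

omit [Fintype V] [DecidableEq V] in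
theorem mem_ein (G : SimpleGraph V) (B : Finset V) (p : V × V) :
    p ∈ inn G B ↔ (p.1 ∈ B ∧ p.2 ∈ B) ∧ G.Adj p.1 p.2 := by
  classical
  simp [inn]

theorem mem_dout (G : SimpleGraph V) (S : Finset V) (p : V × V) :
    p ∈ out G S ↔ (p.1 ∈ S ∧ p.2 ∉ S) ∧ G.Adj p.1 p.2 := by
  classical
  simp [out]

/-- Some small set of vertices contains many edges. -/
def E1 (G : SimpleGraph V) : Prop :=
  ∃ B : Finset V, 4 ≤ B.card ∧ 130 * B.card ≤ Fintype.card V ∧ 4 * B.card ≤ ein G B + 6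

/-- Some large set of vertices (at most one half) is left by at most 12 edges. -/
def E2 (G : SimpleGraph V) : Prop :=
  ∃ S : Finset V, Fintype.card V ≤ 300 * S.card ∧ 2 * S.card ≤ Fintype.card V ∧ dout G S ≤ 12

/-- The matching `e` represents `G`. -/
def Rep (G : SimpleGraph V) (e : V × Fin 4 → V × Fin 4) : Prop :=
  Act (dts (univ : Finset V)) e ∧ (∀ u i, G.Adj u (e (u, i)).1) ∧
  (∀ u w, G.Adj u w → ∃ i, (e (u, i)).1 = w) ∧
  (∀ u i j, (e (u, i)).1 = (e (u, j)).1 → i = j)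

open Classical in
/-- `c_2` of the decompletions of `G` at `q = 2`, as a number 0 or 1. -/
noncomputable def bit (G : SimpleGraph V) : ℕ :=
  if ∃ v, C2Is (decompletion G v) (ZMod 2) 1 then 1 else 0

open Classical in
/-- The neighbours of `v`. -/
noncomputable def nb (G : SimpleGraph V) (v : V) : Finset V := univ.filter fun i => G.Adj v i

omit [DecidableEq V] in
theorem mem_nb (G : SimpleGraph V) (v i : V) : i ∈ nb G v ↔ G.Adj v i := by
  classical
  simp [nb]

end defs

section rmt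
variable {D : Type*} [DecidableEq D]

/-- Rematch: `a` with `e b` and `b` with `e a`. -/
def rmt (e : D → D) (a b : D) : D → D := fun z =>
  if z = a then e b else if z = b then e a else if z = e a then b else if z = e b then a else e z

end rmt

/-! ## Part 1: switchings -/

/-- **NB4** (short). The translation of `FourRegular`.
Proof. `Nat.card {w // G.Adj u w} = (nb G u).card` (`Nat.card_eq_fintype_card`, `Fintype.card_subtype`);
the set of the directed edges is `univ.sigma`/product fibred over the first coordinate: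
`card = ∑ u, (nb G u).card = 4 n`. For the last: fibres over `b` are the neighbours. -/
def NB4_stmt : Prop := ∀ (V : Type) [Fintype V] [DecidableEq V] (G : SimpleGraph V),
  (FourRegular G ↔ ∀ u, (nb G u).card = 4) ∧
  (FourRegular G → (inn G univ).card = 4 * Fintype.card V ∧
    (∀ B : Finset V, ((inn G univ).filter fun p => p.1 ∈ B).card = 4 * B.card) ∧
    ∀ B : Finset V, ((inn G univ).filter fun p => p.2 ∈ B).card = 4 * B.card)

/-- **SWR** (medium). uses: NB4_stmt. Switchings are reversible.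
Proof. `a, b, c, d` are distinct (e.g. `a = d` contradicts `G.Adj c d` and `¬ G.Adj a c`). Regularity:
the neighbours in `sw G a b c d` are: of `a`: `(nb G a).erase b ∪ {c}`; of `b`: `(nb G b).erase a ∪ {d}`;
of `c`: `(nb G c).erase d ∪ {a}`; of `d`: `(nb G d).erase c ∪ {b}`; of the others: `nb G u`; all have 4
elements. The last equality: `ext x y`, unfold `sw`, `Sym2.eq_iff`, cases. -/
def SWR_stmt : Prop := ∀ (V : Type) [Fintype V] [DecidableEq V] (G : SimpleGraph V) (a b c d : V),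
  FourRegular G → Ok G a b c d → FourRegular (sw G a b c d) ∧ Ok (sw G a b c d) a c b d ∧
    sw (sw G a b c d) a c b d = G

/-- **DBL** (medium). uses: SWR_stmt. Double counting.
Proof. Let `T` be the set of the pairs `(G, x)`, `G ∈ RP P`, `x ∈ A G` and `T'` the set of the pairs
`(G', y)`, `G' ∈ RP Q`, `y ∈ B G'` (`Finset.sigma`). `m * cc P ≤ card T`, `card T' ≤ k * cc Q`
(`Finset.card_sigma`, `Finset.card_nsmul_le_sum`, `Finset.sum_le_card_nsmul`). The map
`(G, (a,b,c,d)) ↦ (sw G a b c d, (a,c,b,d))` sends `T` into `T'` and is injective: `G` is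
`sw (sw G a b c d) a c b d` (SWR). -/
def DBL_stmt : Prop := ∀ (V : Type) [Fintype V] [DecidableEq V] (P Q : SimpleGraph V → Prop)
  (A B : SimpleGraph V → Finset (V × V × V × V)) (m k : ℕ),
  (∀ G, FourRegular G → P G → m ≤ (A G).card) →
  (∀ G, FourRegular G → Q G → (B G).card ≤ k) →
  (∀ G, FourRegular G → P G → ∀ a b c d, (a, b, c, d) ∈ A G →
    Ok G a b c d ∧ Q (sw G a b c d) ∧ (a, c, b, d) ∈ B (sw G a b c d)) →
  m * cc P ≤ k * cc Q

/-! ## Part 2: prescribed edges -/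

/-- **PA1** (medium). uses: DBL_stmt, NB4_stmt.
Proof. If `x = y` then `N H = 0`. DBL with `P G = (H ⊆ E(G))`, `Q G = (H.erase s(x,y) ⊆ E(G))`,
`A G` = the `(x, y, c, d)` with `(c, d) ∈ inn G univ`, `c ∉ {x} ∪ nb G x`, `d ∉ {y} ∪ nb G y`,
`s(c,d) ∉ H`; `B G'` = the `(x, c, y, d)` with `c ∈ nb G' x`, `d ∈ nb G' y`, so `(B G').card ≤ 16`.
`(A G).card ≥ 4 n - 20 - 20 - 2 |H|`: `inn G univ` has `4 n` elements, `c ∈ {x} ∪ nb G x` (5 vertices) for
`20` of them, `d ∈ {y} ∪ nb G y` for `20`, and `s(c,d) ∈ H` for at most `2 |H|` (the two orders of each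
element of `H`). `Ok G x y c d` is clear. An element of `H.erase s(x,y)` is an edge of `G` different
from `s(x,y)` and `s(c,d)`, so it is an edge of `sw G x y c d`. -/
def PA1_stmt : Prop := ∀ (V : Type) [Fintype V] [DecidableEq V] (H : Finset (Sym2 V)) (x y : V),
  s(x, y) ∈ H →
  (4 * Fintype.card V - 40 - 2 * H.card) * N H ≤ 16 * N (H.erase s(x, y))

/-- **PA2** (short). uses: PA1_stmt. Pattern lemma.
Proof. Induction on `H.card`. `N ∅ = cc True`. Step: `s(x,y) ∈ H` (`Sym2.ind`), `h = H.card`;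
`16 n ≤ 5 (4 n - 40 - 2 h)` because `200 + 10 h ≤ 4 n`; so `16 n * N H ≤ 5 * 16 * N (H.erase ..)`,
`n * N H ≤ 5 * N (H.erase ..)`. -/
def PA2_stmt : Prop := ∀ (V : Type) [Fintype V] [DecidableEq V] (H : Finset (Sym2 V)),
  100 ≤ Fintype.card V → 10 * H.card ≤ Fintype.card V →
  Fintype.card V ^ H.card * N H ≤ 5 ^ H.card * cc fun _ : SimpleGraph V => True

/-- **DN1** (medium). uses: PA2_stmt. Union bound.
Proof. If `B.card = b` and `4 b ≤ ein G B + 6` then `G` has at least `2 b - 3` edges in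
`K B := B.offDiag.image Sym2.mk` (each edge gives at most two elements of `inn G B`), so it contains
all edges of some `H ∈ (K B).powersetCard (2 b - 3)`. `(K B).card = b.choose 2`
(`Sym2.card_image_offDiag`). So `RP (..)` is contained in the union over `B ∈ univ.powersetCard b` and
`H ∈ (K B).powersetCard (2 b - 3)` of the sets counted by `N H`; `Finset.card_biUnion_le`, PA2. -/
def DN1_stmt : Prop := ∀ (V : Type) [Fintype V] [DecidableEq V] (b : ℕ), 4 ≤ b →
  130 * b ≤ Fintype.card V →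
  Fintype.card V ^ (2 * b - 3) *
      cc (fun G : SimpleGraph V => ∃ B : Finset V, B.card = b ∧ 4 * b ≤ ein G B + 6)
    ≤ (Fintype.card V).choose b * (b.choose 2).choose (2 * b - 3) * 5 ^ (2 * b - 3) *
      cc fun _ : SimpleGraph V => True

/-- **DN2** (medium). uses: nothing. Numerical inequality.
Proof. `m.choose r ≤ m^r / r!` (`Nat.choose_le_pow_div`) and `r! ≥ (r/3)^r` (induction with
`(1+1/r)^r ≤ 3`, or `Nat.factorial_lt` type lemmas), so `m.choose r ≤ (3 m / r)^r`. With `r = 2 b - 3`,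
`m = b (b-1) / 2`: `3 m / r ≤ 0.9 b` (as `b (b-1) / (2 (2b-3)) ≤ 0.3 b` for `b ≥ 4`). So the left side is at most
`(3 n / b)^b (0.9 b)^(2b-3) 5^(2b-3) = 3^b (4.5)^(2b-3) (b/n)^(b-3) n^(2b-3)`; with `b = 3 + k`:
`3^b 4.5^(2b-3) (b/n)^(b-3) = 27 * 91.125 * (60.75 b/n)^k`, `k ≥ 1`, and `60.75 b / n ≤ 1/2`, so
`(60.75 b/n)^k ≤ 60.75 (b/n) (1/2)^(k-1)`; `27 * 91.125 * 60.75 ≤ 150000`. -/
def DN2_stmt : Prop := ∀ n b : ℕ, 4 ≤ b → 130 * b ≤ n →
  ((n.choose b : ℝ) * ((b.choose 2).choose (2 * b - 3) : ℝ)) * 5 ^ (2 * b - 3) ≤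
    150000 * ((b : ℝ) / n) * (1 / 2) ^ (b - 4) * (n : ℝ) ^ (2 * b - 3)

/-- **DN3** (short/medium). uses: DN1_stmt, DN2_stmt.
Proof. `E1 G` iff for some `b`, `4 ≤ b`, `130 b ≤ n`, the event of DN1 holds. Union bound over `b < n`:
`n * cc E1 ≤ ∑ b, 150000 b (1/2)^(b-4) cc True`, and `∑_(k=0..K) (k+4) (1/2)^k ≤ 10`
(induction: `= 10 - (K+6)/2^K`). -/
def DN3_stmt : Prop := ∀ (V : Type) [Fintype V] [DecidableEq V],
  (Fintype.card V : ℝ) * (cc (V := V) E1 : ℝ) ≤ 1500000 * (cc fun _ : SimpleGraph V => True : ℕ)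

/-! ## Part 3: large sets -/

/-- **HS** (medium). uses: NB4_stmt.
Proof. (1) `inn G S` is invariant under the fixed point free involution `(x,y) ↦ (y,x)`
(`Finset.card_involution`-type lemma, or it is twice the number of the pairs `x < y` after choosing a
linear order, or `Finset.sum_involution` mod 2). (2) `{p ∈ inn G univ : p.1 ∈ S}` is the disjoint
union of `inn G S` and `out G S`; NB4. (3) the same for `Sᶜ`; `out G Sᶜ` and `out G S` have the same
cardinality (swap). -/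
def HS_stmt : Prop := ∀ (V : Type) [Fintype V] [DecidableEq V] (G : SimpleGraph V) (S : Finset V),
  FourRegular G → Even (ein G S) ∧ ein G S + dout G S = 4 * S.card ∧
    ein G Sᶜ + dout G S = 4 * Sᶜ.card

/-- **CH1** (LONG). uses: DBL_stmt, HS_stmt, NB4_stmt. One switching across `S`.
Proof. If the bracket is `≤ 0` nothing is to show. Otherwise DBL with `P G = (dout G S = k)`,
`Q G = (dout G S = k + 2)`, `A G` = the `(a,b,c,d)` with `(a,b) ∈ inn G S`, `(c,d) ∈ inn G Sᶜ`,
`¬ G.Adj a c`, `¬ G.Adj b d`, and `B G'` = the `(a,c,b,d)` with `(a,c), (b,d) ∈ out G' S`,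
`(a,c) ≠ (b,d)`: `(k+2)(k+1)` elements. `(A G).card ≥ (4s-k)(4t-k) - 18 k`: there are
`(4s-k)(4t-k)` elements of `inn G S × inn G Sᶜ` (HS); those with `G.Adj a c`: `(a,c) ∈ out G S` (`k`
possibilities), `b ∈ nb G a` with `b ≠ c` (3) and `d ∈ nb G c`, `d ≠ a` (3): at most `9 k`; the same for
`G.Adj b d`. `Ok G a b c d`: `a ≠ c`, `b ≠ d` since `a, b ∈ S`, `c, d ∉ S`. Finally
`out (sw G a b c d) S = out G S ∪ {(a,c), (b,d)}` (the removed edges do not leave `S`; the new ones
were not there; `a ≠ b`). -/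
def CH1_stmt : Prop := ∀ (V : Type) [Fintype V] [DecidableEq V] (S : Finset V) (k : ℕ),
  ((4 * S.card - k : ℤ) * (4 * Sᶜ.card - k) - 18 * k) *
      (cc (fun G : SimpleGraph V => dout G S = k) : ℤ) ≤
    ((k : ℤ) + 2) * (k + 1) * (cc fun G : SimpleGraph V => dout G S = k + 2 : ℕ)

/-- **CH2** (medium). uses: CH1_stmt. The chain.
Proof. `s = S.card`, `t = Sᶜ.card`, `n = s + t`, `x i = cc (dout G S = 2 i)`. For `i < s`:
`(4s-2i)(4t-2i) ≥ 4 s t ≥ 72 i`, so `(4s-2i)(4t-2i) - 36 i ≥ 2 (2s-i)(2t-i)` and by CH1 (`k = 2 i`)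
`2 (2s-i)(2t-i) x i ≤ (2i+2)(2i+1) x (i+1)` (in `ℕ`, `i < s ≤ t`). By induction on `s - j`,
`x j ∏_(j≤i<s) 2(2s-i)(2t-i) ≤ x s ∏_(j≤i<s) (2i+2)(2i+1)`, `x s ≤ cc True`. Multiply by
`∏_(i<j) 2(2s-i)(2t-i) ≤ (8 s t)^j ≤ (2 n²)^j ≤ (2 n²)^6` and `∏_(i<j) (2i+2)(2i+1) ≥ 1`:
`x j ∏_(i<s) 2(2s-i)(2t-i) ≤ (2 n²)^6 (2s)! cc True`. And
`∏_(i<s) 2(2s-i)(2t-i) = 2^s ((2s)!/s!) ((2t)!/(2t-s)!) = 2^s (2s)! (2t).choose s`
(`Nat.descFactorial`). Cancel `(2s)!`. -/
def CH2_stmt : Prop := ∀ (V : Type) [Fintype V] [DecidableEq V] (S : Finset V) (j : ℕ),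
  S.card ≤ Sᶜ.card → 18 ≤ Sᶜ.card → j ≤ 6 → j ≤ S.card →
  2 ^ S.card * (2 * Sᶜ.card).choose S.card * cc (fun G : SimpleGraph V => dout G S = 2 * j) ≤
    (2 * Fintype.card V ^ 2) ^ 6 * cc fun _ : SimpleGraph V => True

/-- **CH3** (medium). uses: CH2_stmt, HS_stmt.
Proof. `dout G S` is even (HS), so it is `2 j` with `j ≤ 6`. Union bound over the `n.choose s` sets
`S` and the seven `j`, multiplied by `2^s (2t).choose s`, `t = n - s` (`≥ n/2 ≥ 18`), CH2:
`2^s (2t).choose s * cc (..) ≤ n.choose s * 7 (2n²)^6 cc True`, and `n.choose s ≤ (2t).choose s`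
(`Nat.choose_le_choose`/`Nat.choose_mono`, `n ≤ 2 t`), `(2t).choose s > 0`; cancel. -/
def CH3_stmt : Prop := ∀ (V : Type) [Fintype V] [DecidableEq V] (s : ℕ), 6 ≤ s →
  2 * s ≤ Fintype.card V → 36 ≤ Fintype.card V →
  2 ^ s * cc (fun G : SimpleGraph V => ∃ S : Finset V, S.card = s ∧ dout G S ≤ 12) ≤
    7 * (2 * Fintype.card V ^ 2) ^ 6 * cc fun _ : SimpleGraph V => True

/-- **CH4** (short). uses: CH3_stmt.
Proof. Union bound over `s = S.card`: `n ≤ 300 s`, `2 s ≤ n`, so `6 ≤ s < n` and `n / 300 ≤ s`,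
`2 ^ (n/300) ≤ 2 ^ s`; CH3. -/
def CH4_stmt : Prop := ∀ (V : Type) [Fintype V] [DecidableEq V], 1800 ≤ Fintype.card V →
  2 ^ (Fintype.card V / 300) * cc (V := V) E2 ≤
    Fintype.card V * (7 * (2 * Fintype.card V ^ 2) ^ 6) * cc fun _ : SimpleGraph V => True

/-! ## Part 4: graphs without exceptional sets are prime ancestors -/

/-- **CN** (short). uses: nothing. Take the vertices reachable from some vertex. -/
def CN_stmt : Prop := ∀ (W : Type) [Fintype W] [DecidableEq W] (H : SimpleGraph W), Nonempty W →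
  ¬ H.Connected → ∃ S : Finset W, S.Nonempty ∧ Sᶜ.Nonempty ∧ ∀ x ∈ S, ∀ y, y ∉ S → ¬ H.Adj x y

/-- **DE** (short). uses: HS_stmt.
Proof. `300 |A| ≥ n`: not `E2`, so `dout ≥ 13`. Otherwise: `|A| = 2`: `ein ≤ 2`, `dout = 8 - ein ≥ 6`.
`|A| = 3`: `ein ≤ 6`, `dout = 12 - ein ≥ 6`. `|A| ≥ 4`: `130 |A| ≤ n`, not `E1`, so
`ein + 6 < 4 |A|`, `dout = 4 |A| - ein > 6`. (`ein G A ≤ |A| (|A| - 1)`: `inn G A ⊆ A.offDiag`.) -/
def DE_stmt : Prop := ∀ (V : Type) [Fintype V] [DecidableEq V] (G : SimpleGraph V) (A : Finset V),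
  FourRegular G → ¬ E1 G → ¬ E2 G → 2 ≤ A.card → 2 * A.card ≤ Fintype.card V → 6 ≤ dout G A

/-- **DT1** (medium). uses: DE_stmt, CN_stmt, HS_stmt, NB4_stmt. Internally 6-connected.
Proof. CN for `G.deleteEdges F` on `V` gives `S`; replace `S` by `Sᶜ` if necessary: `2 |S| ≤ n`. Every edge of
`G` leaving `S` is in `F`, and `(x,y) ↦ s(x,y)` is injective on `out G S`, so `dout G S ≤ 4`. By DE
`|S| = 1`, `S = {v}`; then `out G S` has 4 elements (HS: `ein G {v} = 0`), so the image of `out G S` is all of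
`F`, and all its elements contain `v`. -/
def DT1_stmt : Prop := ∀ (V : Type) [Fintype V] [DecidableEq V] (G : SimpleGraph V),
  FourRegular G → ¬ E1 G → ¬ E2 G → 5 ≤ Fintype.card V →
  ∀ F : Finset (Sym2 V), (F : Set (Sym2 V)) ⊆ G.edgeSet → F.card = 4 →
    ¬ (G.deleteEdges (F : Set (Sym2 V))).Connected → ∃ v, ∀ a ∈ F, v ∈ a

/-- **DT2** (medium/long). uses: DE_stmt, CN_stmt, HS_stmt, NB4_stmt. Vertex connectivity.
Proof. Suppose not. By CN (for the type `Xᶜ`) there is a set `A` of vertices outside `X`, nonempty, with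
`A' = (A ∪ X)ᶜ` nonempty and no edge between `A` and `A'`; exchanging `A` and `A'` we may assume
`|A| ≤ |A'|`, so `2 |A| ≤ n`. Every edge leaving `A` ends in `X`, so `dout G A ≤ 4 |X| ≤ 12`. Not `E2`:
`300 |A| < n`. `|A| = 1`: the four neighbours are in `X`, but `|X| ≤ 3`. `|A| ≥ 2`: `dout G A ≥ 6` (DE). Put
`B = A ∪ X`, `|B| ≤ |A| + 3`. `inn G B` contains `inn G A`, `out G A` and the swapped `out G A`, so
`ein G B ≥ ein G A + 2 dout G A = 4 |A| + dout G A ≥ 4 |A| + 6` (HS), so `4 |B| ≤ 4 |A| + 12 ≤ ein G B + 6`.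
`ein G B ≥ 14` and `ein G B ≤ |B| (|B| - 1)` give `|B| ≥ 5`. `130 |B| ≤ 130 |A| + 390 ≤ n` as `300 |A| < n`,
`700 ≤ n`. So `E1 G`, contradiction. -/
def DT2_stmt : Prop := ∀ (V : Type) [Fintype V] [DecidableEq V] (G : SimpleGraph V),
  FourRegular G → ¬ E1 G → ¬ E2 G → 700 ≤ Fintype.card V →
  ∀ X : Finset V, X.card ≤ 3 → (G.induce ((X : Set V)ᶜ)).Connected

/-- **DT3** (short). uses: nothing.
Proof. If there are exactly two such `z`, say `z₁ ≠ z₂`, then `B = {u, w, z₁, z₂}` has 4 elements and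
`inn G B` contains the ten ordered pairs of the five edges `uw, uz₁, uz₂, wz₁, wz₂`: `16 ≤ 10 + 6`, `E1 G`. -/
def DT3_stmt : Prop := ∀ (V : Type) [Fintype V] [DecidableEq V] (G : SimpleGraph V),
  ¬ E1 G → 520 ≤ Fintype.card V → ∀ u w, G.Adj u w → Nat.card {z // G.Adj u z ∧ G.Adj w z} ≠ 2

/-- **NUM** (short). uses: nothing. `n^13 / 2^(n/300) → 0`. (`n / 300` is the natural quotient;
`2 ^ (n / 300) ≥ 2 ^ (n/300 - 1)` as a real power.) -/
def NUM_stmt : Prop := ∀ ε : ℝ, 0 < ε → ∃ n₀ : ℕ, ∀ n : ℕ, n₀ ≤ n →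
  1500000 / (n : ℝ) + (n : ℝ) * (7 * (2 * (n : ℝ) ^ 2) ^ 6) / 2 ^ (n / 300) ≤ ε

/-- **AAP** (short). uses: DN3_stmt, CH4_stmt, DT1_stmt, DT2_stmt, DT3_stmt, NUM_stmt. Almost all
4-regular graphs are prime ancestors.
Proof. A 4-regular graph without `E1`, `E2` is a prime ancestor (DT1-3, `n ≥ 700`); so
`cc True ≤ cc PrimeAncestor + cc E1 + cc E2`, and `cc E1 + cc E2 ≤ ε cc True` by DN3, CH4, NUM
(`n ≥ 1800`). -/
def AAP_stmt : Prop := ∀ ε : ℝ, 0 < ε → ∃ n₀ : ℕ, ∀ (V : Type) [Fintype V] [DecidableEq V],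
  n₀ ≤ Fintype.card V → (1 - ε) * (cc fun _ : SimpleGraph V => True : ℕ) ≤
    ((cc (V := V) PrimeAncestor : ℕ) : ℝ)

/-! ## Part 5: the five-term relation -/

/-- **NAT** (short). uses: nothing. Naturality of the state sum.
Proof. Induction on `L` (for all `e`, `e'`). With `ι d = (f d.1, d.2)` (injective):
`join e' (ι a) (ι b) (ι z) = ι (join e a b z)` and `lp e' (ι a) (ι b) = lp e a b`. So `ls` agree and
`sm e' (f u) t` extends `sm e u t` in the same sense. -/
def NAT_stmt : Prop := ∀ (V V' : Type) [DecidableEq V] [DecidableEq V'] (f : V → V') (x : ℤ)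
  (L : List V) (e : V × Fin 4 → V × Fin 4) (e' : V' × Fin 4 → V' × Fin 4),
  Function.Injective f → (∀ d, e' (f d.1, d.2) = (f (e d).1, (e d).2)) →
  Z x (L.map f) e' = Z x L e

/-- **FT1** (LONG). uses: NAT_stmt, CT.D1_stmt (proved: `CT.D1`), CT.D0_stmt (proved: `CT.D0`); library
`Pool.Agent.helper56.CT.J1`. The exact five-term relation.
Proof. Work in `V' = Option V`, `ι (u,i) = (some u, i)`, `L' = L.map some`. Let `e'` be the involution with
`(none,0) ↔ ι b`, `(none,1) ↔ ι (e b)`, `(none,2)`, `(none,3)` fixed, `e' (ι d) = ι (e d)` for the other `d`.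
Apply D1 to `L'`, `e'` and the six legs `a = (none,0)`, `b = (none,1)`, `c,d,f,g = (some v, 0..3)`.
(1) `join e' (none,0) (none,1)` is the extension `ê` of `e` (the `none` darts fixed) and
`lp e' (none,0) (none,1) = 0`; the three terms with this pair are the three terms of `Z (-4) (some v :: L') ê`
(the pairings of `pr`), which is `Z (-4) (v :: L) e` by NAT.
(2) For `i : Fin 4` let `ê_i` be the extension of `rmt e (v,i) b`. `f_i := join e' (none,0) (some v,i)` has
`ι b ↔ ι (e (v,i))`, `(none,1) ↔ ι (e b)`, `(some v,i)` fixed, and `ê_i` has `ι b ↔ ι (e (v,i))`,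
`(some v,i) ↔ ι (e b)`, `(none,1)` fixed, otherwise they agree. So
`join f_i (none,1) (some v,j) = join ê_i (some v,i) (some v,j)` and the `lp` agree (also
`lp e' (none,0) (some v,i) = 0`), for `j ≠ i`. Hence the three terms of D1 with the pair
`(none,0), (some v,i)` are (after `join_symm`, `join_comm`, `lp_symm`, `lp_comm`; or apply D0 first) the three
terms of `Z (-4) (some v :: L') ê_i = Z (-4) (v :: L) (rmt e (v,i) b)` (NAT). The 15 terms of D1 are
`3 + 4 * 3`. (`e b` and `b` are not at `v`; `e (v,i) ≠ b, e b`.) -/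
def FT1_stmt : Prop := ∀ (V : Type) [DecidableEq V] (L : List V) (e : V × Fin 4 → V × Fin 4) (v : V)
  (b : V × Fin 4), (v :: L).Nodup → Act (dts (v :: L).toFinset) e → b.1 ∈ L → (e b).1 ≠ v →
  Z (-4) (v :: L) e + ∑ i : Fin 4, Z (-4) (v :: L) (rmt e (v, i) b) = 0

/-- **GD2** (medium). uses: nothing. The graph of the rematched darts.
Proof. Write `a = (v,i)`, `w = (e a).1`, `q = (e b).1`, `p = b.1`: by `Ok` the vertices `v, w, q, p` are
distinct, so `a, b, e a, e b` are distinct. `rmt e a b` is an involution without fixed points, with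
`a ↔ e b` (edge `vq`), `b ↔ e a` (edge `pw`), otherwise as `e`. The darts `a, e a` were the only ones of the edge
`vw` and `b, e b` of `qp` (by `(e (u,i)).1 = (e (u,j)).1 → i = j`). Check the four properties. -/
def GD2_stmt : Prop := ∀ (V : Type) [Fintype V] [DecidableEq V] (G : SimpleGraph V)
  (e : V × Fin 4 → V × Fin 4) (v : V) (i : Fin 4) (b : V × Fin 4), Rep G e →
  Ok G v (e (v, i)).1 (e b).1 b.1 →
  Rep (sw G v (e (v, i)).1 (e b).1 b.1) (rmt e (v, i) b)

/-- **FV1** (medium). uses: nothing else (library: `Pool.Agent.helper56.CT.Fin2`: `CT.core`, `CT.fE1`, `CT.fE2`,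
`CT.fE4`, `CT.fB5`, `CT.fJC3`, `CT.fJC1`, `CT.fJZ2`, `CT.card_edges`, `CT.fin_ham`, `CT.c2_unique`, `CT.E3`).
Proof. By JC1 (`n ≥ 3`) `Z (-4) L e = 16 z`; reorder `L` to `(univ.erase v).toList ++ [v]` (JZ2, see the proof
of `CT.c2_of_Z`) and `core`: `32 ∣ 4 numZeros - 16 z`, so `numZeros = 4 k`, `k ≡ z mod 2`, i.e.
`C2Is (decompletion G v) (ZMod 2) z` for every `v`. By `CT.c2_unique` the parity of `z` does not depend on `v`,
and `bit G` is 1 if it is odd, 0 if it is even (`C2Is H (ZMod 2) r` depends only on `r` mod 2). -/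
def FV1_stmt : Prop := ∀ (V : Type) [Fintype V] [DecidableEq V] (G : SimpleGraph V),
  FourRegular G → 6 ≤ Fintype.card V → (∀ v, C2Is (decompletion G v) (ZMod 2) (bit G)) ∧
  ∀ e L, Rep G e → L.Nodup → L.toFinset = univ →
    ∃ z : ℤ, Z (-4) L e = 16 * z ∧ (2 : ℤ) ∣ z - bit G

/-- **FV2** (medium). uses: FT1_stmt, GD2_stmt, FV1_stmt, SWR_stmt; library `CT.E3` (a representation exists).
The five-term relation for `c_2`.
Proof. Let `e` represent `G` (`E3`; `FourRegular` gives `IsRegularOfDegree 4` classically). `p ≠ v` since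
`G.Adj q p`, `¬ G.Adj v q`. Let `b` be the dart of `p` with `(e b).1 = q`, `L = (univ.erase v).toList`. FT1:
`Z (v :: L) e + ∑ i, Z (v :: L) (rmt e (v,i) b) = 0`. For each `i`, `Ok G v w q p` with `w = (e (v,i)).1`, so
`rmt e (v,i) b` represents `sw G v w q p` (GD2), which is 4-regular (SWR). By FV1 all terms are
`16 * (bit + even)`; `i ↦ (e (v,i)).1` is a bijection from `Fin 4` to `nb G v`. -/
def FV2_stmt : Prop := ∀ (V : Type) [Fintype V] [DecidableEq V] (G : SimpleGraph V) (v q p : V),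
  FourRegular G → 6 ≤ Fintype.card V → G.Adj q p → v ≠ q → ¬ G.Adj v q →
  (∀ i, G.Adj v i → i ≠ p ∧ ¬ G.Adj i p) →
  Even (bit G + ∑ i ∈ nb G v, bit (sw G v i q p))

/-- **FC** (medium/long). uses: FV2_stmt, DBL_stmt, NB4_stmt. Double counting.
Proof. DBL with `P G = (bit G = 1)`, `Q G = (bit G = 0)`, `A G` = the `(v,i,q,p)` with `Ok G v i q p` and
`bit (sw G v i q p) = 0`, `B G'` = the `(a,c,b,d)` with `(a,c), (b,d) ∈ inn G' univ`: `(4 n)²` elements.
`(A G).card ≥ n (4 n - 100)`: for each `v` the pairs `(q,p) ∈ inn G univ` with `q ∉ {v} ∪ nb G v` (excludes `20`)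
and `p ∉ nb G v ∪ ⋃_(i ∈ nb G v) nb G i` (at most 20 vertices, excludes `80`) are at least `4 n - 100`, and for
each of them by FV2 the sum of the four bits `bit (sw G v i q p)`, `i ∈ nb G v`, is odd, so one of them is 0
(all bits are 0 or 1): choose such an `i`; `Ok G v i q p` holds. The map `(v,q,p) ↦ (v,i,q,p)` is injective. -/
def FC_stmt : Prop := ∀ (V : Type) [Fintype V] [DecidableEq V], 6 ≤ Fintype.card V →
  Fintype.card V * (4 * Fintype.card V - 100) * cc (fun G : SimpleGraph V => bit G = 1) ≤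
    16 * Fintype.card V ^ 2 * cc fun G : SimpleGraph V => bit G = 0

/-- **NE** (short/medium). uses: nothing. The circulant graph `x ~ x ± 1, x ± 2` on `ZMod n`/`Fin n`, `n ≥ 5`.
The four neighbours `x+1, x-1, x+2, x-2` are distinct for `n ≥ 5`. -/
def NE_stmt : Prop := ∀ n : ℕ, 5 ≤ n → ∃ G : SimpleGraph (Fin n), FourRegular G

/-- **POS** (short). uses: AAP_stmt, FC_stmt. The proportion.
Proof. `x = cc (bit = 1)`, `y = cc (bit = 0)`, `x + y = T = cc True` (`bit G` is 0 or 1). FC: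
`(n - 25) x ≤ 4 n y` for `n ≥ 25`, so `(n - 25) T ≤ (5 n - 25) y`, `y ≥ (1/5 - ε/2) T` for large `n`.
The 4-regular graphs with `bit = 0` which are not prime ancestors are at most `T - cc PrimeAncestor ≤ (ε/2) T`
(AAP). So `cc (PrimeAncestor ∧ bit = 0) ≥ (1/5 - ε) T ≥ (1/5 - ε) cc PrimeAncestor` if `ε ≤ 1/5`, and it is
trivial otherwise. -/
def POS_stmt : Prop := ∀ ε : ℝ, 0 < ε → ∃ n₀ : ℕ, ∀ (V : Type) [Fintype V] [DecidableEq V],
  n₀ ≤ Fintype.card V → (1 / 5 - ε) * (cc (V := V) PrimeAncestor : ℕ) ≤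
    ((cc fun G : SimpleGraph V => PrimeAncestor G ∧ bit G = 0 : ℕ) : ℝ)

end PP
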